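import Pool.Agent.H24R2.DZ.Spec
import Pool.Agent.H581R3.GPR.Rot

set_option autoImplicit false

/-!
# Mellin transform of `1 / (e^z - 1) - 1 / z` on a rotated ray
-/

namespace Pool.W335.SD

open Complex Filter Topology MeasureTheory Set Asymptotics
open Pool.Agent.H24R2.DZ Pool.Agent.H581R3.GPR.Rot

/-- `1 / (e^{xw} - 1)` -/
noncomputable def gg (w : ℂ) (x : ℝ) : ℂ := 1 / (cexp (x * w) - 1)

/-- `1 / x` on `(0,1]` -/
noncomputable def hh : ℝ → ℂ := (Ioc (0 : ℝ) 1).indicator (fun t => (t : ℂ) ^ (-1 : ℂ))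

noncomputable def f1 (w : ℂ) (x : ℝ) : ℂ := gg w x - w⁻¹ • hh x

lemma norm_exp_xw (w : ℂ) (x : ℝ) : ‖cexp (x * w)‖ = Real.exp (x * w.re) := by
  rw [Complex.norm_exp]
  simp

lemma exp_ne {w : ℂ} (hw : 0 < w.re) {x : ℝ} (hx : 0 < x) : cexp (x * w) - 1 ≠ 0 := by
  intro h
  have h1 : cexp (x * w) = 1 := sub_eq_zero.1 h
  have h2 := norm_exp_xw w x
  rw [h1, norm_one] at h2
  have h3 : 1 < Real.exp (x * w.re) := Real.one_lt_exp_iff.2 (mul_pos hx hw)
  linarith

lemma gg_cont {w : ℂ} (hw : 0 < w.re) : ContinuousOn (gg w) (Ioi 0) := by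
  unfold gg
  refine ContinuousOn.div continuousOn_const (by fun_prop) ?_
  intro x hx
  exact exp_ne hw hx

lemma hasSum_gg {w : ℂ} (hw : 0 < w.re) {x : ℝ} (hx : 0 < x) :
    HasSum (fun n : ℕ => cexp (-((((n : ℂ) + 1) * w) * x))) (gg w x) := by
  have hq : ‖cexp (-(x * w))‖ < 1 := by
    rw [Complex.norm_exp]
    have : (-(x * w : ℂ)).re = -(x * w.re) := by simp
    rw [this, Real.exp_lt_one_iff]
    nlinarith [mul_pos hx hw]
  have h := (hasSum_geometric_of_norm_lt_one hq).mul_left (cexp (-(x * w)))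
  have e : cexp (-(x * w)) * (1 - cexp (-(x * w)))⁻¹ = gg w x := by
    unfold gg
    have h1 := exp_ne hw hx
    have h2 : 1 - cexp (-(x * w)) ≠ 0 := by
      intro h3
      rw [← sub_eq_zero.1 h3, norm_one] at hq
      exact lt_irrefl _ hq
    have h3 : cexp (x * w) * cexp (-(x * w)) = 1 := by rw [← Complex.exp_add]; simp
    rw [← div_eq_mul_inv, div_eq_div_iff h2 h1]
    linear_combination h3
  rw [e] at h
  have e2 : (fun n : ℕ => cexp (-(x * w)) * cexp (-(x * w)) ^ n) =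
      fun n : ℕ => cexp (-((((n : ℂ) + 1) * w) * x)) := by
    funext n
    rw [← Complex.exp_nat_mul, ← Complex.exp_add]
    congr 1
    ring
  rw [e2] at h
  exact h

lemma gg_bd {w : ℂ} (hw : 0 < w.re) {x : ℝ} (hx : 0 < x) :
    ‖gg w x‖ ≤ 1 / (Real.exp (x * w.re) - 1) := by
  unfold gg
  rw [norm_div, norm_one]
  have h3 : 1 < Real.exp (x * w.re) := Real.one_lt_exp_iff.2 (mul_pos hx hw)
  refine one_div_le_one_div_of_le (by linarith) ?_
  have := norm_sub_norm_le (cexp (x * w)) 1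
  rw [norm_one, norm_exp_xw] at this
  exact this

lemma gg_zero {w : ℂ} (hw : 0 < w.re) : gg w =O[𝓝[>] 0] (fun x : ℝ => x ^ (-(1 : ℝ))) := by
  refine IsBigO.of_bound (1 / w.re) ?_
  filter_upwards [self_mem_nhdsWithin] with x hx
  have hx0 : 0 < x := hx
  refine (gg_bd hw hx0).trans ?_
  have h1 : x * w.re ≤ Real.exp (x * w.re) - 1 := by linarith [Real.add_one_le_exp (x * w.re)]
  rw [Real.norm_eq_abs, abs_of_pos (Real.rpow_pos_of_pos hx0 _), Real.rpow_neg_one]
  calc 1 / (Real.exp (x * w.re) - 1) ≤ 1 / (x * w.re) :=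
        one_div_le_one_div_of_le (mul_pos hx0 hw) h1
    _ = 1 / w.re * x⁻¹ := by rw [mul_comm, one_div, mul_inv, one_div]

lemma gg_top {w : ℂ} (hw : 0 < w.re) : gg w =O[atTop] (fun x : ℝ => Real.exp (-w.re * x)) := by
  refine IsBigO.of_bound 2 ?_
  filter_upwards [eventually_ge_atTop (1 / w.re), eventually_gt_atTop 0] with x hx hx0
  refine (gg_bd hw hx0).trans ?_
  have h1 : 1 ≤ x * w.re := by
    rw [div_le_iff₀ hw] at hx
    exact hx
  have h2 : 2 ≤ Real.exp (x * w.re) := by linarith [Real.add_one_le_exp (x * w.re)]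
  rw [Real.norm_eq_abs, abs_of_pos (Real.exp_pos _)]
  have h3 : Real.exp (-w.re * x) = (Real.exp (x * w.re))⁻¹ := by
    rw [← Real.exp_neg]; congr 1; ring
  rw [h3, div_le_iff₀ (by linarith)]
  have h4 : (0 : ℝ) < Real.exp (x * w.re) := Real.exp_pos _
  have h5 : 2 * (Real.exp (x * w.re))⁻¹ * (Real.exp (x * w.re) - 1) =
      2 - 2 * (Real.exp (x * w.re))⁻¹ := by
    field_simp
  rw [h5]
  have h6 : (Real.exp (x * w.re))⁻¹ ≤ 2⁻¹ := inv_anti₀ (by norm_num) h2
  linarith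

/-- bound near zero -/
lemma f1_bd {w : ℂ} (hw : 0 < w.re) (hw1 : ‖w‖ = 1) {x : ℝ} (hx : 0 < x) (hx1 : x ≤ 1 / 2) :
    ‖f1 w x‖ ≤ 2 := by
  have hw0 : w ≠ 0 := by rintro rfl; simp at hw
  have hx0 : (x : ℂ) ≠ 0 := by exact_mod_cast hx.ne'
  set z : ℂ := x * w with hz
  have hz0 : z ≠ 0 := mul_ne_zero hx0 hw0
  have hzn : ‖z‖ = x := by
    rw [hz, norm_mul, hw1, mul_one, Complex.norm_real, Real.norm_of_nonneg hx.le]
  have e1 : f1 w x = 1 / (cexp z - 1) - 1 / z := by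
    unfold f1 gg hh
    rw [indicator_of_mem (show x ∈ Ioc (0 : ℝ) 1 from ⟨hx, by linarith⟩), Complex.cpow_neg_one, hz,
      smul_eq_mul, one_div (↑x * w), mul_inv, mul_comm w⁻¹]
  have h1 : ‖cexp z - 1 - z‖ ≤ ‖z‖ ^ 2 := Complex.norm_exp_sub_one_sub_id_le (by rw [hzn]; linarith)
  have h2 : ‖z‖ / 2 ≤ ‖cexp z - 1‖ := by
    have h3 : ‖z‖ ≤ ‖cexp z - 1‖ + ‖cexp z - 1 - z‖ := by
      have : z = (cexp z - 1) - (cexp z - 1 - z) := by ring
      calc ‖z‖ = ‖(cexp z - 1) - (cexp z - 1 - z)‖ := by rw [← this]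
        _ ≤ _ := norm_sub_le _ _
    have h4 : ‖z‖ ^ 2 ≤ ‖z‖ / 2 := by rw [hzn]; nlinarith
    linarith
  have h5 : cexp z - 1 ≠ 0 := exp_ne hw hx
  have e2 : 1 / (cexp z - 1) - 1 / z = -(cexp z - 1 - z) / ((cexp z - 1) * z) := by
    field_simp
    ring
  have hzp : 0 < ‖z‖ := norm_pos_iff.2 hz0
  rw [e1, e2, norm_div, norm_neg, norm_mul, div_le_iff₀ (mul_pos (norm_pos_iff.2 h5) hzp)]
  calc ‖cexp z - 1 - z‖ ≤ ‖z‖ ^ 2 := h1
    _ = 2 * (‖z‖ / 2 * ‖z‖) := by ring
    _ ≤ 2 * (‖cexp z - 1‖ * ‖z‖) :=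
        mul_le_mul_of_nonneg_left (mul_le_mul_of_nonneg_right h2 hzp.le) (by norm_num)

lemma f1_zero {w : ℂ} (hw : 0 < w.re) (hw1 : ‖w‖ = 1) :
    f1 w =O[𝓝[>] 0] (fun x : ℝ => x ^ (-(0 : ℝ))) := by
  refine IsBigO.of_bound 2 ?_
  have h : ∀ᶠ x : ℝ in 𝓝[>] 0, x ≤ 1 / 2 :=
    nhdsWithin_le_nhds (ge_mem_nhds (by norm_num))
  filter_upwards [self_mem_nhdsWithin, h] with x hx hx1
  rw [neg_zero, Real.rpow_zero, norm_one, mul_one]
  exact f1_bd hw hw1 hx hx1

lemma f1_top {w : ℂ} (hw : 0 < w.re) : f1 w =O[atTop] (fun x : ℝ => Real.exp (-w.re * x)) := by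
  refine (gg_top hw).congr' ?_ EventuallyEq.rfl
  filter_upwards [eventually_gt_atTop (1 : ℝ)] with x hx
  unfold f1 hh
  rw [indicator_of_notMem (fun h => absurd h.2 (not_le.2 hx)), smul_zero, sub_zero]

lemma hh_loc : LocallyIntegrableOn hh (Ioi 0) := by
  have h : ContinuousOn (fun t : ℝ => (t : ℂ) ^ (-1 : ℂ)) (Ioi 0) := by
    intro t ht
    exact (Complex.continuousAt_ofReal_cpow_const t (-1)
      (Or.inr (ne_of_gt ht))).continuousWithinAt
  have h1 := h.locallyIntegrableOn (μ := volume) measurableSet_Ioi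
  intro x hx
  obtain ⟨u, hu, hi⟩ := h1 x hx
  exact ⟨u, hu, hi.indicator measurableSet_Ioc⟩

lemma f1_loc {w : ℂ} (hw : 0 < w.re) : LocallyIntegrableOn (f1 w) (Ioi 0) := by
  have h1 := (gg_cont hw).locallyIntegrableOn (μ := volume) measurableSet_Ioi
  have h2 : LocallyIntegrableOn (fun x => w⁻¹ • hh x) (Ioi 0) := by
    intro x hx
    obtain ⟨u, hu, hi⟩ := hh_loc x hx
    exact ⟨u, hu, hi.smul w⁻¹⟩
  exact h1.sub h2

/-- the Mellin transform of `gg`, `Re s > 1` -/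
lemma mellin_gg {w : ℂ} (hw : 0 < w.re) {s : ℂ} (hs : 1 < s.re) :
    MellinConvergent (gg w) s ∧
      mellin (gg w) s = (∑' n : ℕ, (1 / (((n : ℂ) + 1) * w)) ^ s) * Complex.Gamma s := by
  refine ⟨mellinConvergent_of_isBigO_rpow_exp hw
    ((gg_cont hw).locallyIntegrableOn measurableSet_Ioi) (gg_top hw) (gg_zero hw) hs, ?_⟩
  have hs0 : 0 < s.re := by linarith
  set F : ℕ → ℝ → ℂ := fun n x => (x : ℂ) ^ (s - 1) * cexp (-((((n : ℂ) + 1) * w) * x)) with hF
  have hpos : ∀ n : ℕ, 0 < ((n : ℝ) + 1) * w.re := fun n => by positivity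
  have hre : ∀ n : ℕ, 0 < (((n : ℂ) + 1) * w).re := by
    intro n
    have : (((n : ℂ) + 1) * w).re = ((n : ℝ) + 1) * w.re := by
      rw [Complex.mul_re]
      simp
    rw [this]; exact hpos n
  have hnorm : ∀ n : ℕ, ∀ x ∈ Ioi (0 : ℝ), ‖F n x‖ =
      x ^ (s.re - 1) * Real.exp (-(((n : ℝ) + 1) * w.re * x)) := by
    intro n x hx
    rw [hF]
    simp only
    rw [norm_mul, Complex.norm_cpow_eq_rpow_re_of_pos hx, Complex.norm_exp]
    congr 2
    simp
  have hint : ∀ n, Integrable (F n) (volume.restrict (Ioi 0)) := by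
    intro n
    refine Integrable.mono' (int_rpow_exp (s := s.re - 1) (by linarith) (hpos n))
      (cpow_exp_meas s _) ?_
    refine (ae_restrict_iff' measurableSet_Ioi).2 (Eventually.of_forall fun x hx => ?_)
    exact (hnorm n x hx).le
  have hintn : ∀ n, ∫ x in Ioi (0 : ℝ), ‖F n x‖ =
      (1 / (((n : ℝ) + 1) * w.re)) ^ s.re * Real.Gamma s.re := by
    intro n
    rw [setIntegral_congr_fun measurableSet_Ioi (hnorm n)]
    exact Real.integral_rpow_mul_exp_neg_mul_Ioi hs0 (hpos n)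
  have hsum : Summable fun n => ∫ x in Ioi (0 : ℝ), ‖F n x‖ := by
    simp only [hintn]
    refine Summable.mul_right _ ?_
    have h1 : Summable (fun n : ℕ => 1 / ((n : ℝ) + 1) ^ s.re) := by
      have := (summable_nat_add_iff 1).2 (Real.summable_one_div_nat_rpow.2 hs)
      refine this.congr fun n => ?_
      push_cast
      rfl
    refine (h1.mul_right ((1 / w.re) ^ s.re)).congr fun n => ?_
    rw [← Real.one_rpow s.re, ← Real.div_rpow zero_le_one (by positivity),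
      ← Real.mul_rpow (by positivity) (by positivity)]
    congr 1
    · rw [Real.one_rpow]; field_simp
  have key := hasSum_integral_of_summable_integral_norm hint hsum
  have e1 : ∀ n, ∫ x in Ioi (0 : ℝ), F n x = (1 / (((n : ℂ) + 1) * w)) ^ s * Complex.Gamma s :=
    fun n => rot_formula hs0 (hre n)
  have e2 : ∫ x in Ioi (0 : ℝ), ∑' n, F n x = mellin (gg w) s := by
    unfold mellin
    refine setIntegral_congr_fun measurableSet_Ioi fun x hx => ?_
    have h1 := (hasSum_gg hw hx).mul_left ((x : ℂ) ^ (s - 1))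
    simp only [hF, smul_eq_mul]
    exact h1.tsum_eq
  rw [← e2, ← key.tsum_eq, ← tsum_mul_right]
  exact tsum_congr e1

lemma mellin_f1 {w : ℂ} (hw : 0 < w.re) {s : ℂ} (hs : 1 < s.re) :
    mellin (f1 w) s = (∑' n : ℕ, (1 / (((n : ℂ) + 1) * w)) ^ s) * Complex.Gamma s -
      w⁻¹ * (1 / (s - 1)) := by
  obtain ⟨h1, h2⟩ := mellin_gg hw hs
  obtain ⟨h3, h4⟩ := hasMellin_cpow_Ioc (-1) (s := s) (by simp; linarith)
  have h5 : MellinConvergent (fun t => w⁻¹ • hh t) s := h3.const_smul w⁻¹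
  have h6 := (hasMellin_sub h1 h5).2
  have h7 : mellin (fun t => w⁻¹ • hh t) s = w⁻¹ * (1 / (s - 1)) := by
    rw [mellin_const_smul]
    have : mellin hh s = 1 / (s - 1) := by
      unfold hh
      rw [h4]
      congr 1
    rw [this, smul_eq_mul]
  have h8 : mellin (f1 w) s = mellin (gg w) s - mellin (fun t => w⁻¹ • hh t) s := h6
  rw [h8, h2, h7]

/-- the direction -/
noncomputable def dir (φ : ℝ) : ℂ := cexp (I * (φ : ℂ))

lemma dir_re (φ : ℝ) : (dir φ).re = Real.cos φ := by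
  unfold dir
  rw [mul_comm, Complex.exp_mul_I, Complex.add_re, ← Complex.ofReal_cos, ← Complex.ofReal_sin,
    Complex.ofReal_re]
  simp

lemma dir_norm (φ : ℝ) : ‖dir φ‖ = 1 := by
  unfold dir
  rw [mul_comm]
  exact Complex.norm_exp_ofReal_mul_I φ

lemma term_eq {φ : ℝ} (h0 : 0 < φ) (h1 : φ < Real.pi / 2) (n : ℕ) (s : ℂ) :
    (1 / (((n : ℂ) + 1) * dir φ)) ^ s =
      (1 / ((n : ℂ) + 1) ^ s) * cexp (-(I * (φ : ℂ)) * s) := by
  have hn : (0 : ℝ) < 1 / ((n : ℝ) + 1) := by positivity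
  have e1 : 1 / (((n : ℂ) + 1) * dir φ) = ((1 / ((n : ℝ) + 1) : ℝ) : ℂ) * cexp (-(I * (φ : ℂ))) := by
    unfold dir
    rw [Complex.exp_neg]
    push_cast
    rw [one_div, mul_inv, one_div]
  have hl : Complex.log (cexp (-(I * (φ : ℂ)))) = -(I * (φ : ℂ)) := by
    apply Complex.log_exp
    · simp only [neg_im, mul_im, I_re, ofReal_im, mul_zero, I_im, ofReal_re, one_mul, zero_add]
      linarith [Real.pi_pos]
    · simp only [neg_im, mul_im, I_re, ofReal_im, mul_zero, I_im, ofReal_re, one_mul, zero_add]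
      linarith [Real.pi_pos]
  have hn0 : ((n : ℂ) + 1) ≠ 0 := by exact_mod_cast Nat.succ_ne_zero n
  have hne : ((1 / ((n : ℝ) + 1) : ℝ) : ℂ) * cexp (-(I * (φ : ℂ))) ≠ 0 :=
    mul_ne_zero (by exact_mod_cast hn.ne') (Complex.exp_ne_zero _)
  rw [e1, Complex.cpow_def_of_ne_zero hne, Complex.log_ofReal_mul hn (Complex.exp_ne_zero _), hl,
    add_mul, Complex.exp_add]
  congr 1
  rw [Complex.cpow_def_of_ne_zero hn0, one_div (cexp _), ← Complex.exp_neg, one_div, Real.log_inv]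
  congr 1
  have : ((n : ℂ) + 1) = (((n : ℝ) + 1 : ℝ) : ℂ) := by push_cast; rfl
  rw [this, ← Complex.ofReal_log (by positivity)]
  push_cast
  ring

/-- the right side -/
noncomputable def R (φ : ℝ) (s : ℂ) : ℂ :=
  cexp (-(I * (φ : ℂ)) * s) * Complex.Gamma s * riemannZeta s - (dir φ)⁻¹ * (1 / (s - 1))

lemma f1_eq_R {φ : ℝ} (h0 : 0 < φ) (h1 : φ < Real.pi / 2) {s : ℂ} (hs : 1 < s.re) :
    mellin (f1 (dir φ)) s = R φ s := by
  have hw : 0 < (dir φ).re := by
    rw [dir_re]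
    exact Real.cos_pos_of_mem_Ioo ⟨by linarith [Real.pi_pos], h1⟩
  rw [mellin_f1 hw hs]
  unfold R
  congr 1
  simp only [term_eq h0 h1]
  rw [tsum_mul_right, ← zeta_eq_tsum_one_div_nat_add_one_cpow hs]
  ring

lemma L_diff {φ : ℝ} (h0 : 0 < φ) (h1 : φ < Real.pi / 2) {s : ℂ} (hs : 0 < s.re) :
    DifferentiableAt ℂ (mellin (f1 (dir φ))) s := by
  have hw : 0 < (dir φ).re := by
    rw [dir_re]
    exact Real.cos_pos_of_mem_Ioo ⟨by linarith [Real.pi_pos], h1⟩
  exact mellin_differentiableAt_of_isBigO_rpow_exp hw (f1_loc hw) (f1_top hw)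
    (f1_zero hw (dir_norm φ)) hs

lemma R_diff (φ : ℝ) {s : ℂ} (hs : 0 < s.re) (hs1 : s ≠ 1) : DifferentiableAt ℂ (R φ) s := by
  unfold R
  have hG : DifferentiableAt ℂ Complex.Gamma s := by
    refine Complex.differentiableAt_Gamma s fun m h => ?_
    rw [h] at hs
    simp at hs
    have : (0 : ℝ) ≤ m := Nat.cast_nonneg m
    linarith
  have hz := differentiableAt_riemannZeta hs1
  have hd : DifferentiableAt ℂ (fun s : ℂ => 1 / (s - 1)) s :=
    (differentiableAt_const _).div (differentiableAt_id.sub_const 1) (sub_ne_zero.2 hs1)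
  have he : DifferentiableAt ℂ (fun s : ℂ => cexp (-(I * (φ : ℂ)) * s)) s := by fun_prop
  exact ((he.mul hG).mul hz).sub (hd.const_mul _)

/-- the identity off the real axis -/
lemma eq_off {φ : ℝ} (h0 : 0 < φ) (h1 : φ < Real.pi / 2) (e : ℝ) (he : e = 1 ∨ e = -1) {s : ℂ}
    (hs : 0 < s.re) (hsi : 0 < e * s.im) : mellin (f1 (dir φ)) s = R φ s := by
  set U : Set ℂ := {s : ℂ | 0 < s.re} ∩ {s : ℂ | 0 < e * s.im} with hU
  have hUo : IsOpen U :=
    (isOpen_lt continuous_const Complex.continuous_re).inter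
      (isOpen_lt continuous_const (continuous_const.mul Complex.continuous_im))
  have hne : ∀ z ∈ U, z ≠ 1 := by
    rintro z hz rfl
    have := hz.2
    simp at this
  have hc : Convex ℝ U := by
    refine (convex_halfSpace_re_gt 0).inter ?_
    intro x hx y hy a b ha hb hab
    simp only [Set.mem_ofPred_eq, Complex.add_im, Complex.smul_im, smul_eq_mul] at *
    have : e * (a * x.im + b * y.im) = a * (e * x.im) + b * (e * y.im) := by ring
    rw [this]
    rcases ha.eq_or_lt with h | h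
    · rw [← h] at hab ⊢
      have : b = 1 := by linarith
      rw [this]; linarith
    · have := mul_pos h hx
      have := mul_nonneg hb hy.le
      linarith
  have hL : AnalyticOnNhd ℂ (mellin (f1 (dir φ))) U :=
    DifferentiableOn.analyticOnNhd
      (fun z hz => (L_diff h0 h1 hz.1).differentiableWithinAt) hUo
  have hR : AnalyticOnNhd ℂ (R φ) U :=
    DifferentiableOn.analyticOnNhd
      (fun z hz => (R_diff φ hz.1 (hne z hz)).differentiableWithinAt) hUo
  have hz0 : (2 + e * I : ℂ) ∈ U := by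
    refine ⟨by simp, ?_⟩
    simp only [Set.mem_ofPred_eq]
    rcases he with h | h <;> rw [h] <;> simp
  refine hL.eqOn_of_preconnected_of_eventuallyEq hR hc.isPreconnected hz0 ?_ ⟨hs, hsi⟩
  have : ∀ᶠ z : ℂ in 𝓝 (2 + e * I : ℂ), 1 < z.re := by
    refine (isOpen_lt continuous_const Complex.continuous_re).mem_nhds ?_
    simp
  filter_upwards [this] with z hz
  exact f1_eq_R h0 h1 hz

lemma eq_all {φ : ℝ} (h0 : 0 < φ) (h1 : φ < Real.pi / 2) {s : ℂ}
    (hs : 0 < s.re) (hs1 : s.re < 1) : mellin (f1 (dir φ)) s = R φ s := by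
  rcases lt_trichotomy s.im 0 with h | h | h
  · exact eq_off h0 h1 (-1) (Or.inr rfl) hs (by linarith)
  · have hne : s ≠ 1 := by rintro rfl; simp at hs1
    have hcont : ContinuousAt (fun z => mellin (f1 (dir φ)) z - R φ z) s :=
      (L_diff h0 h1 hs).continuousAt.sub (R_diff φ hs hne).continuousAt
    have hc2 : Tendsto (fun τ : ℝ => s + τ * I) (𝓝[>] 0) (𝓝 s) := by
      have : Continuous (fun τ : ℝ => s + τ * I) := by fun_prop
      refine (this.tendsto' 0 s (by simp)).mono_left nhdsWithin_le_nhds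
    have h3 := hcont.tendsto.comp hc2
    have h4 : Tendsto ((fun z => mellin (f1 (dir φ)) z - R φ z) ∘ fun τ : ℝ => s + τ * I)
        (𝓝[>] 0) (𝓝 0) := by
      refine tendsto_const_nhds.congr' ?_
      filter_upwards [self_mem_nhdsWithin] with τ hτ
      simp only [Function.comp_apply]
      rw [eq_off h0 h1 1 (Or.inl rfl) (s := s + τ * I) (by simpa using hs) ?_, sub_self]
      have : (s + τ * I).im = τ := by simp [h]
      rw [this, one_mul]
      exact hτ
    exact sub_eq_zero.1 (tendsto_nhds_unique h3 h4)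
  · exact eq_off h0 h1 1 (Or.inl rfl) hs (by linarith)

theorem smel : SMel := by
  intro δ σ t hδ hδ' hσ hσ'
  set φ : ℝ := Real.pi / 2 - δ with hφ
  have h0 : 0 < φ := by linarith
  have h1 : φ < Real.pi / 2 := by linarith
  set s : ℂ := (σ : ℂ) + t * I with hs
  have hsre : s.re = σ := by rw [hs]; simp
  have hw : 0 < (dir φ).re := by
    rw [dir_re]
    exact Real.cos_pos_of_mem_Ioo ⟨by linarith [Real.pi_pos], h1⟩
  have hw0 : dir φ ≠ 0 := Complex.exp_ne_zero _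
  have hray : ∀ x : ℝ, ray δ x = x * dir φ := fun x => rfl
  -- decomposition of `ff`
  have hdec : ∀ x ∈ Ioi (0 : ℝ), ff (ray δ x) * (x : ℂ) ^ (s - 1) =
      (x : ℂ) ^ (s - 1) • f1 (dir φ) x -
        (dir φ)⁻¹ * (Ioi (1 : ℝ)).indicator (fun x : ℝ => (x : ℂ) ^ (s - 2)) x := by
    intro x hx
    have hx0 : (x : ℂ) ≠ 0 := by exact_mod_cast (ne_of_gt hx)
    rw [hray]
    unfold ff f1 gg hh
    by_cases hx1 : x ≤ 1
    · have hnm : x ∉ Ioi (1 : ℝ) := by
        rw [mem_Ioi, not_lt]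
        exact hx1
      rw [indicator_of_mem (show x ∈ Ioc (0 : ℝ) 1 from ⟨hx, hx1⟩), Complex.cpow_neg_one,
        Set.indicator_of_notMem hnm]
      simp only [smul_eq_mul]
      rw [one_div (↑x * dir φ), mul_inv]
      ring
    · rw [indicator_of_notMem (fun h => absurd h.2 hx1),
        indicator_of_mem (show x ∈ Ioi (1 : ℝ) from not_le.1 hx1)]
      simp only [smul_eq_mul]
      have e : (x : ℂ) ^ (s - 2) = (x : ℂ) ^ (s - 1) * (x : ℂ)⁻¹ := by
        rw [← Complex.cpow_neg_one, ← Complex.cpow_add _ _ hx0]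
        congr 1
        ring
      rw [e, one_div (↑x * dir φ), mul_inv]
      ring
  have hM : MellinConvergent (f1 (dir φ)) s :=
    mellinConvergent_of_isBigO_rpow_exp hw (f1_loc hw) (f1_top hw)
      (f1_zero hw (dir_norm φ)) (by rw [hsre]; exact hσ)
  have hlt : (s - 2).re < -1 := by
    rw [Complex.sub_re, hsre]
    simp
    linarith
  have hT : IntegrableOn (fun x : ℝ => (x : ℂ) ^ (s - 2)) (Ioi 1) :=
    integrableOn_Ioi_cpow_of_lt hlt one_pos
  have hT2 : Integrable ((Ioi (1 : ℝ)).indicator (fun x : ℝ => (x : ℂ) ^ (s - 2)))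
      (volume.restrict (Ioi 0)) := by
    refine Integrable.mono_measure ?_ Measure.restrict_le_self
    exact (integrable_indicator_iff measurableSet_Ioi).2 hT
  have hI : IntegrableOn (fun x : ℝ => (x : ℂ) ^ (s - 1) • f1 (dir φ) x -
        (dir φ)⁻¹ * (Ioi (1 : ℝ)).indicator (fun x : ℝ => (x : ℂ) ^ (s - 2)) x) (Ioi 0) :=
    Integrable.sub hM (hT2.const_mul _)
  refine ⟨hI.congr_fun (fun x hx => (hdec x hx).symm) measurableSet_Ioi, ?_⟩
  rw [setIntegral_congr_fun measurableSet_Ioi hdec, integral_sub hM (hT2.const_mul _)]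
  have e1 : ∫ x in Ioi (0 : ℝ), (x : ℂ) ^ (s - 1) • f1 (dir φ) x = R φ s :=
    eq_all h0 h1 (by rw [hsre]; exact hσ) (by rw [hsre]; exact hσ')
  have e2 : ∫ x in Ioi (0 : ℝ), (dir φ)⁻¹ * (Ioi (1 : ℝ)).indicator
      (fun x : ℝ => (x : ℂ) ^ (s - 2)) x = (dir φ)⁻¹ * (-(1 / (s - 1))) := by
    rw [integral_const_mul]
    congr 1
    rw [setIntegral_indicator measurableSet_Ioi, Ioi_inter_Ioi, max_eq_right zero_le_one,
      integral_Ioi_cpow_of_lt hlt one_pos]
    rw [Complex.ofReal_one, Complex.one_cpow]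
    have : s - 2 + 1 = s - 1 := by ring
    rw [this]
    ring
  rw [e1, e2]
  unfold R
  ring

end Pool.W335.SD
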